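import Pool.Agent.Results.MP_b4801b_ag.OneFrobenius
import Pool.Agent.Run7.h479.SO.Iso
import Pool.Agent.Run7.h16.MA.Angle

/-!
# Semisimplicity of `ℓ`-adic cohomology from the norms of the Frobenius numbers at one prime number,
for CM fields abelian over the rational numbers

Let `X` be a smooth projective variety over a finitely generated field `k` of characteristic zero,
`w > 0`, and `V` the `w`-th `ℓ`-adic cohomology of `X`, or a part of it that is cut out by algebraic
correspondences. Spread `X` out over a scheme `T` of finite type over `ℚ` with function field `k`, let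
`t` be a closed point of `T` with residue field `K`, a number field, and `Γ` the fundamental group of
`T`. This is the structure `PurePolarized` of the starting file `OneFrobenius`: a representation of
`Γ` by similitudes which is continuous and pure of weight `w` on the Galois group of `K`.

**Theorem.** Let `p` be ONE prime number that splits completely in `K` into primes `v i` of good
reduction. Suppose that the complex roots of the Frobenius polynomials at the `v i` are, with
multiplicities, the conjugates of numbers `π k` in CM fields `E k` that are abelian over `ℚ`, and that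

* for each `k` and each subfield `T` of `E k` which is cyclic over `ℚ` and not totally real, no
  positive power of the norm of `π k` to `T` is a product of elements of proper subfields of `T`
  (`NormsIndecomposable`);
* isomorphic subfields of two different fields `E k` are totally real (`RealIntersections`).

Then `V` is a semisimple representation of `Γ`, and so of the Galois group of `k`: the orthogonal
complement of every stable subspace is a stable complement. There is no assumption on the Hodge
numbers, on the slopes, on `dim V` or on `ℓ`.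

By the exact criterion of `MP_021685_ag` AbelianFields the two conditions are also necessary for the
absence of multiplicative relations between the conjugates of the `π k` and `p`. The result
HalfOrbitSlopes of helper479 on this page treats other CM fields, with a condition on the slopes on
one set of embeddings.

The proof. An isotropic relation of the starting file is a relation `∏ z = root of unity · p^r` between
some of the eigenvalues. The antisymmetric part `c` of the exponents is a function on the Galois groups
of the `E k`, orthogonal to all the translates of the slopes. For an odd character `θ` of the Galois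
group of `E k` the intersections being real implies that the product of the Fourier coefficients of
`c` and of the slopes of `π k` is zero, and the latter is not zero since the norm of `π k` to the
fixed field `T` of the kernel of `θ` is indecomposable. So `c = 0`.
-/

set_option autoImplicit false

namespace Pool.Agent.Results.MP_b4801b_ag.AbelianFieldsOnePrime

open NumberField IsDedekindDomain Polynomial Pool.Agent.Results.MP_b4801b_ag.OneFrobenius
  Pool.Agent.Run7.h479.SO Run7.h16.AB

/-- The polynomials `P i` are described by the family of numbers `π k`: the algebraic integer `π k`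
belongs to the index `pl k`, its complex absolute values are `p ^ (w / 2)`, and the complex roots of
`P i` are, with multiplicities, the images of the `π k` with `pl k = i` under all complex embeddings of
`E k`. -/
structure Describes {m : ℕ} (P : Fin m → ℤ[X]) (p w : ℕ) {κ : Type} [Fintype κ]
    (E : κ → Type) [∀ k, Field (E k)] [∀ k, NumberField (E k)] (pl : κ → Fin m) (π : ∀ k, E k) :
    Prop where
  integral : ∀ k, IsIntegral ℤ (π k)
  weil : ∀ k, ∀ φ : E k →+* ℂ, ‖φ (π k)‖ ^ 2 = (p : ℝ) ^ w
  roots : ∀ i, ∃ s : Finset (Σ k, (E k →+* ℂ)), (∀ x, x ∈ s ↔ pl x.1 = i) ∧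
    (P i).aroots ℂ = s.val.map fun x => x.2 (π x.1)

theorem conj_eq {E : Type} [Field E] [NumberField E] [IsCMField E] {x : E} {p w : ℕ}
    (h : ∀ φ : E →+* ℂ, ‖φ x‖ ^ 2 = (p : ℝ) ^ w) :
    x * IsCMField.complexConj E x = (p : E) ^ w := by
  obtain ⟨φ⟩ : Nonempty (E →+* ℂ) := inferInstance
  apply φ.injective
  rw [map_mul, IsCMField.complexEmbedding_complexConj, map_pow, map_natCast, Complex.mul_conj,
    Complex.normSq_eq_norm_sq, h φ]
  push_cast
  rfl

/-- **Semisimplicity from the norms of the Frobenius numbers at one prime number.** -/
theorem result (K : Type) [Field K] [NumberField K] (ℓ w : ℕ) [Fact ℓ.Prime] (hw : 0 < w)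
    (Γ V : Type) [Group Γ] [AddCommGroup V] [Module ℚ_[ℓ] V] [FiniteDimensional ℚ_[ℓ] V]
    (A : PurePolarized K ℓ w Γ V)
    -- the Frobenius numbers at one prime number that splits completely into primes of good reduction
    (p : ℕ) [Fact p.Prime] (v : Fin (Module.finrank ℚ K) → HeightOneSpectrum (𝓞 K))
    (hv : SplitsInto p v) (hvS : ∀ i, v i ∉ A.S) {κ : Type} [Fintype κ] (E : κ → Type)
    [∀ k, Field (E k)] [∀ k, NumberField (E k)] [∀ k, IsCMField (E k)]
    [∀ k, IsAbelianGalois ℚ (E k)] (pl : κ → Fin (Module.finrank ℚ K)) (π : ∀ k, E k)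
    (hπ : Describes (fun i => A.P (v i)) p w E pl π) (hnorm : NormsIndecomposable π)
    (hreal : RealIntersections E)
    (U : Submodule ℚ_[ℓ] V) (hU : ∀ g : Γ, ∀ x ∈ U, A.ρ g x ∈ U) :
    IsCompl U (A.B.orthogonal U) ∧ ∀ g : Γ, ∀ x ∈ A.B.orthogonal U, A.ρ g x ∈ A.B.orthogonal U := by
  classical
  refine OneFrobenius.result K ℓ w hw Γ V A (fun d hd _ _ => ⟨p, v, hv, hvS, fun h => ?_⟩) U hU
  obtain ⟨Q, n, hn, hQ, hprod⟩ := h.1
  have hpp : p.Prime := Fact.out
  have hp0 : p ≠ 0 := hpp.ne_zero
  have hang := Run7.h16.MA.angle_of_abelian (p := p) (a := w) (π := π) hπ.integral hw hπ.weil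
    hnorm hreal
  have hrel : ∀ (r : ℤ) (n : (Σ k, (E k →+* ℂ)) → ℤ), ∏ x, vl π x ^ n x = (p : ℂ) ^ r →
      ∀ x, n x = n (bx x) := by
    intro r n h x
    have h1 : ∏ x : Σ k, (E k →+* ℂ), (x.2 (π x.1)) ^ ((w : ℤ) * n x) =
        (((p ^ w : ℕ)) : ℂ) ^ r := by
      have h2 : ∀ x : Σ k, (E k →+* ℂ), (x.2 (π x.1)) ^ ((w : ℤ) * n x) = (vl π x ^ n x) ^ w := by
        intro x
        rw [mul_comm, zpow_mul, zpow_natCast]
        rfl
      rw [Finset.prod_congr rfl (fun x _ => h2 x), Finset.prod_pow, h]
      push_cast
      rw [← zpow_natCast, ← zpow_natCast, ← zpow_mul, ← zpow_mul, mul_comm]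
    have h3 := hang r (fun x => (w : ℤ) * n x) h1 x.1 x.2
    have h4 : (w : ℤ) ≠ 0 := by exact_mod_cast hw.ne'
    exact mul_left_cancel₀ h4 h3
  have hzero := no_isotropic (J := Fin (Module.finrank ℚ K)) (q := fun _ => p ^ w)
    (fun k => pow_ne_zero _ hp0)
    (fun k => by push_cast; exact conj_eq (hπ.weil k)) hrel
    Finset.univ pl (fun k => Finset.mem_univ _) (fun i => (A.P (v i)).aroots ℂ)
    (fun i => (Q i).aroots ℂ) (fun _ => ((p ^ w : ℕ) : ℂ)) (fun k => rfl) (fun i _ => by
      obtain ⟨s, hs, hr⟩ := hπ.roots i
      have h2 : s = Finset.univ.filter fun x : Σ k, (E k →+* ℂ) => pl x.1 = i := by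
        ext x
        rw [hs, Finset.mem_filter]
        simp
      rw [← h2]
      exact le_of_eq hr) (fun i _ => (hQ i).2.2) (2 * n) (by omega)
    ((w * (d * Module.finrank ℚ K * n) : ℕ) : ℤ) (by
      rw [hprod, zpow_natCast]
      push_cast
      rw [← pow_mul])
  have hm : 0 < Module.finrank ℚ K := Module.finrank_pos
  have h1 := hzero ⟨0, hm⟩ (Finset.mem_univ _)
  obtain ⟨h2, h3, -⟩ := hQ ⟨0, hm⟩
  have h4 : Multiset.card ((Q ⟨0, hm⟩).aroots ℂ) = (Q ⟨0, hm⟩).natDegree := by
    rw [Polynomial.aroots_def, Algebra.algebraMap_self, Polynomial.map_id]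
    exact (IsAlgClosed.splits (Q ⟨0, hm⟩)).natDegree_eq_card_roots.symm
  change (Q ⟨0, hm⟩).aroots ℂ = 0 at h1
  rw [h1, Multiset.card_zero, h3] at h4
  omega

end Pool.Agent.Results.MP_b4801b_ag.AbelianFieldsOnePrime
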