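import Pool.Agent.Run7.h293.AN.A

/-!
# Semisimplicity, lengths and commutants: bounds by the conductor

Let `V` be a continuous representation of the absolute Galois group of a number field `F` over a topological
field `K` of characteristic `0` (`Rep`), for instance `V = H^i(X, ℚ_ℓ)`. Let `Q i` be representatives of the
places outside `ℓ` at which `V` is ramified (`Represents`; for `F = ℚ` one for each bad prime `p ≠ ℓ`),
and `r_i = dim V - dim V^{I_i}` the codimension of the fixed vectors of the inertia group `I_i` at `Q i`
(`drop`). It is the exponent of the conductor if the ramification is tame. The basic assumption is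

* `NothingUnramified`: no nonzero subrepresentation is unramified outside `ℓ`. By the theorem of Fontaine
  (Schémas propres et lisses sur `Z`) this holds for `F = ℚ`, `ℓ = 7` if `V` is pure of odd weight and crystalline at
  `7` with Hodge-Tate weights in `[0, 3]`, for instance `V = H³(X, ℚ_7)`, `X` a variety over `ℚ` with
  good reduction at `7`. The same is true for the subquotients of `V` (`NothingBetween`).

The results hold for the subgroups `H` with the property `Admissible`: `H` is the whole Galois group, or
`F` has no unramified extensions (`F = ℚ`), `H` has finite index, and `V` is semistable (the inertia groups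
outside `ℓ` act unipotently, and those above `ℓ` have a connected Zariski closure).

**Theorem 1.** For two such representations `V` and `V'` all `H`-homomorphisms `V → V'` are
homomorphisms of Galois representations, and the dimension of their space is at most `∑ r_i r_i'`. So
the space of the Tate classes in `H^i(X) ⊗ H^i(Y)(i)` over all number fields has at most this dimension. In
particular there are no such Tate classes if `X` and `Y` have no common bad prime. And the commutant of `V` has
dimension at most `∑ r_i ^ 2`; semisimplicity is not assumed.

**Theorem 2.** Every chain of `H`-stable subspaces has length at most `∑ r_i`. So the number of the irreducible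
constituents of `V` over all number fields is at most the number `Ω(N)` of the prime factors of the conductor `N`
outside `ℓ`.

**Theorem 3.** Suppose that `V` has a polarization `ω`, and that the monodromy at the bad places is
`Anisotropic`: a subspace which is stable under the decomposition group at `Q i`, and isotropic for all the
forms `ω (σ x - x) y`, `σ ∈ I_i`, is fixed by `I_i`. (Let `N ^ 2 = 0` for the local monodromy `N`: then this
says that the monodromy pairing on `V / ker N` has no isotropic subspaces which are stable under Frobenius. It
is true if `I_i` fixes a hyperplane (one ordinary double point), by part 4 of the result, but also for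
two ordinary double points which are conjugate over the residue field, in odd dimension, where Frobenius
has two different eigenvalues on `V / ker N` with the same square.) Then `V` is semisimple, under `H`, and all
stable subspaces are nondegenerate for `ω`.

In Theorem 3 nothing is assumed on weights and monodromy at the bad places (the weight-monodromy
conjecture), on the Jordan type of `N` (several equal blocks are allowed), or on irreducibility.

The proofs: a homomorphism `f` induces maps `V / V^{I_i} → V' / V'^{I_i}`; if all of them are zero then the image of
`f` is unramified outside `ℓ`, and so it is zero. The function `∑ (dim U - dim U^{I_i})` is strictly increasing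
on the stable subspaces `U`. The radical of a stable subspace is isotropic, so fixed by all the `I_i`.
The subspaces which are stable under `H`, and the graphs of the `H`-homomorphisms, are stable under the Galois
group by Minkowski's theorem (library `Run7.h293.CN`).
-/

set_option autoImplicit false

namespace Pool.Agent.Results.MP_b4801b_ag.ConductorBounds

open Run7.h293.AN Run7.h293.CN Run7.h293.TS Module Pool.Agent.W569.FM

/-- **Semisimplicity, lengths and commutants.** -/
theorem result :
    -- the field of rational numbers has no unramified extension, and one place for each prime
    NoUnramified ℚ ∧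
    (∀ (K V : Type) [Field K] [TopologicalSpace K] [AddCommGroup V] [Module K V] (X : Rep ℚ K V)
      (ℓ : ℕ) (S : Finset ℕ), ℓ.Prime → (∀ p ∈ S, p.Prime ∧ p ≠ ℓ) →
      (∀ Q : Ideal (OO ℚ), Q.IsMaximal → (ℓ : OO ℚ) ∉ Q → (∀ p ∈ S, (p : OO ℚ) ∉ Q) →
        ∀ σ, InInertia Q σ → X.ρ σ = 1) →
      ∃ Q : Fin S.card → Ideal (OO ℚ), Represents X ℓ Q ∧ ∀ i, ∃ p ∈ S, (p : OO ℚ) ∈ Q i) ∧
    ∀ (F K V : Type) [Field F] [Field K] [CharZero K] [TopologicalSpace K] [T1Space K]
      [IsTopologicalRing K] [AddCommGroup V] [Module K V] [FiniteDimensional K V] (X : Rep F K V)
      (ℓ r : ℕ) (Q : Fin r → Ideal (OO F)) (H : Subgroup (GF F)), Represents X ℓ Q →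
      -- 1. homomorphisms
      (NothingUnramified X ℓ → ∀ (V' : Type) [AddCommGroup V'] [Module K V']
        [FiniteDimensional K V'] (X' : Rep F K V'), Admissible (sum X' X) ℓ H → HomBound X' X Q H) ∧
      -- 2. lengths
      (NothingBetween X ℓ → Admissible X ℓ H → LengthBound X Q H) ∧
      -- 3. semisimplicity
      ∀ (ω : V →ₗ[K] V →ₗ[K] K) (χ : GF F →* K), Polarization X ω χ →
        (NothingUnramified X ℓ → (∀ i, Anisotropic X ω (Q i)) → Admissible X ℓ H →
          OrthogonallySemisimple X ω H ∧ LengthBound X Q H) ∧
        -- 4. inertia groups which fix a hyperplane
        ∀ i, drop X (Q i) ≤ 1 → (∀ σ, InInertia (Q i) σ → χ σ = 1) → Anisotropic X ω (Q i) := by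
  refine ⟨noUnramified_rat, ?_, ?_⟩
  · intro K V _ _ _ _ X ℓ S hℓ hS hg
    exact represents_rat X ℓ S hS hℓ hg
  · intro F K V _ _ _ _ _ _ _ _ _ X ℓ r Q H hR
    refine ⟨?_, ?_, ?_⟩
    · intro hF V' _ _ _ X' hH
      have h1 := homs_lift hH
      exact ⟨h1, by rw [h1]; exact homs_le hR hF⟩
    · intro hB hH n U hU hs
      exact length_le hR hB U (fun i => lift hH (hU i)) hs
    · intro ω χ hω
      refine ⟨?_, ?_⟩
      · intro hF hA hH
        refine ⟨?_, ?_⟩
        · intro U hU
          have h1 := lift hH hU
          exact ⟨fun g _ => perp_stable hω h1 g (Subgroup.mem_top g), perp_isCompl hω hR hA hF h1⟩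
        · intro n U hU hs
          exact length_le hR (between_of_aniso hω hR hA hF) U (fun i => lift hH (hU i)) hs
      · intro i hi hχ
        refine aniso_of_hyperplane hω ?_ hχ
        unfold drop at hi
        omega

end Pool.Agent.Results.MP_b4801b_ag.ConductorBounds
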