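import Pool.Agent.Results.MP_b4801b_ag.OneFrobenius
import Pool.Agent.Run7.h479.SO.Iso

/-!
# Semisimplicity of `ℓ`-adic cohomology from the slopes of Frobenius at one prime number

Let `X` be a smooth projective variety over a finitely generated field `k` of characteristic zero,
`w > 0`, and `V` the `w`-th `ℓ`-adic cohomology of `X`, or a part of it that is cut out by algebraic
correspondences. Spread `X` out over a scheme `T` of finite type over `ℚ` with function field `k`, let
`t` be a closed point of `T` with residue field `K`, a number field, and `Γ` the fundamental group of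
`T`. This is the structure `PurePolarized` of the starting file `OneFrobenius`: a representation of
`Γ` by similitudes which is continuous and pure of weight `w` on the Galois group of `K`.

**Theorem.** Let `p` be ONE prime number that splits completely in `K` into primes `v i` of good
reduction. Suppose that the complex roots of the Frobenius polynomials at the `v i` are, with
multiplicities, the conjugates of numbers `π k` in separated CM fields `E k`, such that for each
`π k` there is a set `O` of complex embeddings of `E k` which contains one of each pair of complex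
conjugate embeddings and is an orbit of a group of automorphisms of `ℂ` that acts on it through a
commutative group; the sum of the slope deviations over `O` is not zero; and the slope deviations on
`O` are `b w + c` with numbers `b ≠ 0` and `c` and natural numbers `w φ` whose sum over `O` is not a
sum of prime divisors of the number of elements of `O`. Then `V` is a semisimple representation of
`Γ`, and so of the Galois group of `k`: the orthogonal complement of every stable subspace is a stable
complement. There is no assumption on the Hodge numbers, on `dim V` or on `ℓ`.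
-/

set_option autoImplicit false

namespace Pool.Agent.Results.MP_b4801b_ag.HalfOrbitSlopes

open NumberField IsDedekindDomain Polynomial Pool.Agent.Results.MP_b4801b_ag.OneFrobenius
  Pool.Agent.Run7.h479.SO

/-- The polynomials `P i` are described by the family of numbers `π k`: the number `π k` belongs to
the index `pl k`, it is a Weil number for `p ^ w`, and the complex roots of `P i` are, with
multiplicities, the images of the `π k` with `pl k = i` under all complex embeddings of `E k`. -/
structure Describes {m : ℕ} (P : Fin m → ℤ[X]) (p w : ℕ) {κ : Type} [Fintype κ]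
    (E : κ → Type) [∀ k, Field (E k)] [∀ k, NumberField (E k)] [∀ k, IsCMField (E k)]
    (pl : κ → Fin m) (π : ∀ k, E k) : Prop where
  weil : ∀ k, π k * IsCMField.complexConj (E k) (π k) = (p : E k) ^ w
  roots : ∀ i, ∃ s : Finset (Σ k, (E k →+* ℂ)), (∀ x, x ∈ s ↔ pl x.1 = i) ∧
    (P i).aroots ℂ = s.val.map fun x => x.2 (π x.1)

/-- **Semisimplicity from the slopes at one prime number.** -/
theorem result (K : Type) [Field K] [NumberField K] (ℓ w : ℕ) [Fact ℓ.Prime] (hw : 0 < w)
    (Γ V : Type) [Group Γ] [AddCommGroup V] [Module ℚ_[ℓ] V] [FiniteDimensional ℚ_[ℓ] V]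
    (A : PurePolarized K ℓ w Γ V)
    -- the slopes at one prime number that splits completely into primes of good reduction
    (p : ℕ) [Fact p.Prime] (v : Fin (Module.finrank ℚ K) → HeightOneSpectrum (𝓞 K))
    (hv : SplitsInto p v) (hvS : ∀ i, v i ∉ A.S) {κ : Type} [Fintype κ] (E : κ → Type)
    [∀ k, Field (E k)] [∀ k, NumberField (E k)] [∀ k, IsCMField (E k)]
    (pl : κ → Fin (Module.finrank ℚ K)) (π : ∀ k, E k)
    (hπ : Describes (fun i => A.P (v i)) p w E pl π) (hsep : Separated E)
    (hgood : ∀ k, GoodSlopes p w (π k))
    (U : Submodule ℚ_[ℓ] V) (hU : ∀ g : Γ, ∀ x ∈ U, A.ρ g x ∈ U) :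
    IsCompl U (A.B.orthogonal U) ∧ ∀ g : Γ, ∀ x ∈ A.B.orthogonal U, A.ρ g x ∈ A.B.orthogonal U := by
  classical
  refine OneFrobenius.result K ℓ w hw Γ V A (fun d hd _ _ => ⟨p, v, hv, hvS, fun h => ?_⟩) U hU
  obtain ⟨Q, n, hn, hQ, hprod⟩ := h.1
  have hpp : p.Prime := Fact.out
  have hp0 : p ≠ 0 := hpp.ne_zero
  have hzero := no_isotropic (J := Fin (Module.finrank ℚ K)) (q := fun _ => p ^ w)
    (fun k => pow_ne_zero _ hp0)
    (fun k => by push_cast; exact hπ.weil k)
    (fun r n h x => rel_of_good (a := fun _ => w) (fun _ => hw) hπ.weil hsep hgood r n h x)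
    Finset.univ pl (fun k => Finset.mem_univ _) (fun i => (A.P (v i)).aroots ℂ)
    (fun i => (Q i).aroots ℂ) (fun _ => ((p ^ w : ℕ) : ℂ)) (fun k => rfl) (fun i _ => by
      obtain ⟨s, hs, hr⟩ := hπ.roots i
      have h2 : s = Finset.univ.filter fun x : Σ k, (E k →+* ℂ) => pl x.1 = i := by
        ext x
        rw [hs, Finset.mem_filter]
        simp
      rw [← h2]
      exact le_of_eq hr) (fun i _ => (hQ i).2.2) (2 * n) (by omega)
    ((w * (d * Module.finrank ℚ K * n) : ℕ) : ℤ) (by
      rw [hprod, zpow_natCast]
      push_cast
      rw [← pow_mul])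
  have hm : 0 < Module.finrank ℚ K := Module.finrank_pos
  have h1 := hzero ⟨0, hm⟩ (Finset.mem_univ _)
  obtain ⟨h2, h3, -⟩ := hQ ⟨0, hm⟩
  have h4 : Multiset.card ((Q ⟨0, hm⟩).aroots ℂ) = (Q ⟨0, hm⟩).natDegree := by
    rw [Polynomial.aroots_def, Algebra.algebraMap_self, Polynomial.map_id]
    exact (IsAlgClosed.splits (Q ⟨0, hm⟩)).natDegree_eq_card_roots.symm
  change (Q ⟨0, hm⟩).aroots ℂ = 0 at h1
  rw [h1, Multiset.card_zero, h3] at h4
  omega

end Pool.Agent.Results.MP_b4801b_ag.HalfOrbitSlopes
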