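import Pool.Agent.Run7.h261.MT.Known

/-!
# Semisimplicity of the cohomology of hyperkähler varieties of any deformation type

Let `X` be a projective hyperkähler variety over a number field `K`, of any deformation type. We prove
that all cohomology groups `H^i(X)`, in even and odd degrees, are semisimple representations of the
Galois group of `K`, and so are all tensor constructions with them. The only representation for
which this was known is `H²(X)` (Faltings' theorem, applied to the Kuga-Satake variety by Deligne and
André).

Idea of the proof. At a place `v` of degree one and good reduction the slope operator of a tensor
construction `e` of weight `2 m` is `m + ρ_e (S_2 - 1) + T_e` with the slope operator `S_2` of `H²` and a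
nilpotent operator `T_e`; here `ρ_e` is the action of the Lie algebra `so(H²)` (Verbitsky,
Looijenga-Lunts). So the eigenvalues of the Frobenius elements on the invariants of `so(H²)` in `e` are
`p ^ m` times roots of unity of bounded order, by Kronecker's theorem, and by Chebotarev's theorem an
open subgroup `U` of the Galois group acts unipotently on the invariants, twisted by `m`. By Kolchin's
theorem and the vanishing of `H¹_g(K', ℚ_ℓ)` it acts trivially. Hence the embeddings of tensor
constructions of even weight into sums of tensor constructions with `H²` (Verbitsky, Weyl) are compatible
with an open subgroup, and the even case follows from the case of `H²`. If `i` is odd then `End H^i(X)`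
is of even weight, and a representation of a group in characteristic zero is semisimple if its space of
endomorphisms is semisimple.
-/

set_option autoImplicit false

namespace Pool.Agent.Results.MP_b4801b_ag.HyperkaehlerAnyType

open NumberField Module Pool.Agent.Run7.h261.MT Pool.Agent.W401.Cheb

/-- **Semisimplicity.** Let `X` be a projective hyperkähler variety over a number field `K`. Suppose
(this is the known theorem on `H²(X)`, `h2`) that the tensor constructions with `H²(X)` and Tate twists
are semisimple over all finite extensions of `K`. Then for all `i` every subspace of `H^i(X)` which is
stable under the Galois group has a stable complement. -/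
theorem result {K : Type} [Field K] [NumberField K] {Ω : Type} [Field Ω] [CharZero Ω]
    [IsAlgClosed Ω] [TopologicalSpace Ω] [IsTopologicalRing Ω] [T2Space Ω] (R : HKReal K Ω)
    (h2 : ∀ e : Expr, e.two → ∀ U : Subgroup (GK K), IsOpen (U : Set (GK K)) →
      IsSemi R.c e U) (i : ℕ) (hi : i ≤ R.X.d) : StableCompl fun σ => (R.X.E.F σ).φ i :=
  gal_semi R.D R.c R.rigid R.weyl h2 (e := Expr.H i) hi

end Pool.Agent.Results.MP_b4801b_ag.HyperkaehlerAnyType
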